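import Pool.Agent.HUK.Stmts
import Pool.Agent.Helper21_HIP.AVZ
import Pool.Agent.HIK.All

/-! Row SPK of squad HUK: power saving in the ring of integers of every number field (helper40). -/

set_option autoImplicit false

namespace Pool.Agent.HUK.H40

open Polynomial NumberField Pool.Agent.HIK Pool.Agent.HIP

/-- the elements of small house are zeros of integral polynomials with small coefficients -/
theorem mem_Ip {E : Type} [Field E] [CharZero E] {k : Type} [Field k] [NumberField k]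
    (σ : k →+* E) (a : 𝓞 k) (X : ℕ) (hX : 2 ≤ X) (ha : house (a : k) ≤ 2 * (X : ℝ)) :
    σ a ∈ Ip E (Module.finrank ℚ k) (X ^ (3 * Module.finrank ℚ k)) := by
  set m := Module.finrank ℚ k with hm
  have hai : IsIntegral ℤ (a : k) := a.isIntegral_coe
  have hmp : minpoly ℚ (a : k) = (minpoly ℤ (a : k)).map (algebraMap ℤ ℚ) :=
    minpoly.isIntegrallyClosed_eq_field_fractions' ℚ hai
  have hX1 : (1 : ℝ) ≤ (X : ℝ) := by exact_mod_cast (by omega : 1 ≤ X)
  refine ⟨minpoly ℤ (a : k), minpoly.monic hai, ?_, fun i => ?_, ?_⟩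
  · rw [← (minpoly.monic hai).natDegree_map (algebraMap ℤ ℚ), ← hmp]
    exact minpoly.natDegree_le _
  · have h1 := Embeddings.coeff_bdd_of_norm_le (A := ℂ) (B := 2 * (X : ℝ)) (x := (a : k))
      (fun φ => (norm_embedding_le_house (a : k) φ).trans ha) i
    rw [hmp, coeff_map, ← hm] at h1
    have h2 : ‖(algebraMap ℤ ℚ) ((minpoly ℤ (a : k)).coeff i)‖ =
        ((|(minpoly ℤ (a : k)).coeff i| : ℤ) : ℝ) := by
      rw [eq_intCast, Int.norm_cast_rat, Int.norm_eq_abs, Int.cast_abs]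
    rw [h2, max_eq_left (by linarith)] at h1
    have h3 : ((m.choose (m / 2) : ℕ) : ℝ) ≤ 2 ^ m := by
      exact_mod_cast Nat.choose_le_two_pow m (m / 2)
    have h4 : ((|(minpoly ℤ (a : k)).coeff i| : ℤ) : ℝ) ≤ (X : ℝ) ^ (3 * m) := by
      calc ((|(minpoly ℤ (a : k)).coeff i| : ℤ) : ℝ)
          ≤ (2 * (X : ℝ)) ^ m * (m.choose (m / 2) : ℕ) := h1
        _ ≤ (2 * (X : ℝ)) ^ m * 2 ^ m := by
            apply mul_le_mul_of_nonneg_left h3
            positivity
        _ = ((2 * 2) * (X : ℝ)) ^ m := by rw [← mul_pow]; ring_nf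
        _ ≤ ((X : ℝ) ^ 3) ^ m := by
            apply pow_le_pow_left₀ (by positivity)
            have h5 : (2 : ℝ) ≤ X := by exact_mod_cast hX
            have h6 : (4 : ℝ) ≤ (X : ℝ) ^ 2 := by nlinarith
            calc 2 * 2 * (X : ℝ) = 4 * X := by ring
              _ ≤ (X : ℝ) ^ 2 * X := mul_le_mul_of_nonneg_right h6 (by positivity)
              _ = (X : ℝ) ^ 3 := by ring
        _ = (X : ℝ) ^ (3 * m) := by rw [← pow_mul]
    have h5 : ((|(minpoly ℤ (a : k)).coeff i| : ℤ) : ℝ) ≤ (((X ^ (3 * m) : ℕ) : ℤ) : ℝ) := by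
      push_cast at h4 ⊢
      exact h4
    exact_mod_cast h5
  · have h1 : aeval (σ (a : k)) (minpoly ℤ (a : k)) = σ (aeval (a : k) (minpoly ℤ (a : k))) := by
      rw [aeval_def, aeval_def, hom_eval₂]
      congr 1
      exact RingHom.ext_int _ _
    rw [h1, minpoly.aeval, map_zero]

theorem spk : SpkStmt := by
  intro E _ _ S hS k _ _ σ
  obtain ⟨C, δ, hδ, hC⟩ := hS (Module.finrank ℚ k) (3 * Module.finrank ℚ k)
  have hmin : 0 < min δ 1 := lt_min hδ one_pos
  have hP : PZ k (min δ 1) {a : 𝓞 k | σ a ∈ S} := by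
    apply H21.avz boxA k {a : 𝓞 k | σ a ∈ S} (min δ 1) hmin.le (min_le_right _ _)
    refine ⟨C, 2, fun X hX a0 ha0 => ?_⟩
    have h1 := hC X (by omega) (σ a0) (mem_Ip σ a0 X hX ha0)
    have h2 : Nat.card {j : ℕ // j < X ∧ a0 + (j : 𝓞 k) ∈ {a : 𝓞 k | σ a ∈ S}} =
        Nat.card {κ : ℕ // κ < X ∧ σ a0 + (κ : E) ∈ S} := by
      congr 1
      have h3 : ∀ j : ℕ, (j < X ∧ a0 + (j : 𝓞 k) ∈ {a : 𝓞 k | σ a ∈ S}) ↔
          (j < X ∧ σ a0 + (j : E) ∈ S) := by
        intro j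
        have h4 : σ ((a0 + (j : 𝓞 k) : 𝓞 k) : k) = σ a0 + (j : E) := by
          push_cast
          rw [map_add, map_natCast]
        change (j < X ∧ σ ((a0 + (j : 𝓞 k) : 𝓞 k) : k) ∈ S) ↔ _
        rw [h4]
      exact congrArg Subtype (funext fun j => propext (h3 j))
    rw [h2]
    refine h1.trans ?_
    apply mul_le_mul_of_nonneg_left _ (Nat.cast_nonneg C)
    apply Real.rpow_le_rpow_of_exponent_le
    · exact_mod_cast (by omega : 1 ≤ X)
    · linarith [min_le_left δ 1]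
  obtain ⟨C', hC'⟩ := hP
  refine ⟨min δ 1, ⌈C'⌉₊, hmin, fun X hX => (hC' X hX).trans ?_⟩
  apply mul_le_mul_of_nonneg_right (Nat.le_ceil C')
  positivity

end Pool.Agent.HUK.H40
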